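import Pool.Agent.T2h19.AP.Stm

set_option autoImplicit false

open MvPolynomial

namespace Pool.Agent.T2h69.AP

open Pool.Agent.T2h19.AP

theorem tan_ (hOMF : S_OMF) (hTNW : S_TNW) (hTAU : S_TAU) (hTAL : S_TAL) : S_TAN := by
  intro ι _ _ K hK w hw t ht u
  obtain ⟨-, o1, o2⟩ := hOMF ι K hK u
  have base : tangent (ideal K.C) (t • K.pt u) = Submodule.span ℂ (Set.range fun i => frame K.φ u i) := by
    apply le_antisymm
    · intro v hv
      let v' : ι → ℂ := K.L 0 v • frame K.φ u 0 + ∑ a : Fin 6, (K.L a.succ v - K.L 0 v * u a) • frame K.φ u a.succ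
      have hmem : v' ∈ Submodule.span ℂ (Set.range fun i => frame K.φ u i) := by
        refine Submodule.add_mem _ (Submodule.smul_mem _ _ (Submodule.subset_span ⟨0, rfl⟩)) ?_
        exact Submodule.sum_mem _ fun a _ => Submodule.smul_mem _ _ (Submodule.subset_span ⟨a.succ, rfl⟩)
      have hsub : Submodule.span ℂ (Set.range fun i => frame K.φ u i) ≤ tangent (ideal K.C) (t • K.pt u) := by
        rw [Submodule.span_le]
        rintro _ ⟨i, rfl⟩
        exact hTAU ι K hK t ht u i
      have h0 : v - v' = 0 := by
        refine hTAL ι K hK t ht u _ (Submodule.sub_mem _ hv (hsub hmem)) fun j => ?_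
        refine Fin.cases ?_ (fun j => ?_) j
        · simp only [v', map_sub, map_add, map_smul, map_sum, frame_zero, frame_succ, o1, hK.L_zero]
          simp
        · simp only [v', map_sub, map_add, map_smul, map_sum, frame_zero, frame_succ, o2, hK.L_succ]
          simp
      have : v = v' := sub_eq_zero.1 h0
      rw [this]
      exact hmem
    · rw [Submodule.span_le]
      rintro _ ⟨i, rfl⟩
      exact hTAU ι K hK t ht u i
  ext v
  have e1 : v = w (w.symm v) := (w.apply_symm_apply v).symm
  have e2 : (Set.range fun i => w (frame K.φ u i)) = w.toLinearMap '' (Set.range fun i => frame K.φ u i) := by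
    ext z
    simp
  rw [e2, ← Submodule.map_span, ← base]
  constructor
  · intro hv
    refine ⟨w.symm v, ?_, e1.symm⟩
    rw [e1] at hv
    exact (hTNW ι K hK w hw _ _).1 hv
  · rintro ⟨v', hv', rfl⟩
    exact (hTNW ι K hK w hw _ _).2 hv'

end Pool.Agent.T2h69.AP
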