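import Pool.Agent.T2h19.AP.Stm

set_option autoImplicit false

open MvPolynomial

namespace Pool.Agent.T2h69.AP

open Pool.Agent.T2h19.AP

theorem chain {ι τ : Type} [Fintype ι] [DecidableEq ι] (ψ : ι → MvPolynomial τ ℂ) (a : τ) (F : MvPolynomial ι ℂ) :
    pderiv a (aeval ψ F) = ∑ i, aeval ψ (pderiv i F) * pderiv a (ψ i) := by
  induction F using MvPolynomial.induction_on with
  | C r => simp [algebraMap_eq]
  | add p q hp hq =>
    simp only [map_add, hp, hq, add_mul, Finset.sum_add_distrib]
  | mul_X p n hp =>
    have h1 : ∀ i, aeval ψ (pderiv i (p * X n)) * pderiv a (ψ i) =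
        (aeval ψ (pderiv i p) * pderiv a (ψ i)) * ψ n +
          (if i = n then aeval ψ p * pderiv a (ψ n) else 0) := by
      intro i
      rw [Derivation.leibniz, pderiv_X]
      simp only [smul_eq_mul, map_add, map_mul, aeval_X]
      by_cases h : i = n
      · subst h
        simp
        ring
      · simp [h, Ne.symm h]
        ring
    rw [map_mul, aeval_X, Derivation.leibniz, hp, Finset.sum_congr rfl fun i _ => h1 i,
      Finset.sum_add_distrib, ← Finset.sum_mul, Finset.sum_ite_eq' Finset.univ n]
    simp only [Finset.mem_univ, if_true, smul_eq_mul]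
    ring

theorem tau_ : S_TAU := by
  intro ι _ _ K hK t ht u i
  have key : ∀ (τ : Type) (ψ : ι → MvPolynomial τ ℂ) (a : τ) (p : τ → ℂ),
      (∀ q : τ → ℂ, (fun i => eval q (ψ i)) ∈ K.C) → (fun i => eval p (ψ i)) = t • K.pt u →
      ∀ F ∈ ideal K.C, ∑ i, eval (t • K.pt u) (pderiv i F) * eval p (pderiv a (ψ i)) = 0 := by
    intro τ ψ a p hψ hp F hF
    have ev1 : ∀ (q : τ → ℂ) (G : MvPolynomial ι ℂ), eval q (aeval ψ G) = eval (fun i => eval q (ψ i)) G := by
      intro q G
      rw [aeval_def, ← coe_eval₂Hom, ← RingHom.comp_apply]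
      have : (eval q).comp (eval₂Hom (algebraMap ℂ (MvPolynomial τ ℂ)) ψ) =
          (eval fun i => eval q (ψ i)) := by
        apply MvPolynomial.ringHom_ext
        · intro r
          simp [algebraMap_eq]
        · intro i
          simp
      rw [this]
    have h0 : aeval ψ F = 0 := by
      apply MvPolynomial.funext
      intro q
      rw [ev1, map_zero]
      exact hF _ (hψ q)
    have h1 := congrArg (eval p) (congrArg (pderiv a) h0)
    rw [chain, map_zero, map_zero, map_sum] at h1
    rw [← h1]
    refine Finset.sum_congr rfl fun i _ => ?_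
    rw [map_mul, ev1, hp]
  refine Fin.cases ?_ (fun a => ?_) i
  · intro F hF
    have h := key Unit (fun i => X () * C (K.pt u i)) () (fun _ => t) (by
      intro q
      have : (fun i => eval q (X () * C (K.pt u i))) = q () • ev K.φ u := by
        funext i
        simp [Cells.pt]
      rw [this]
      exact hK.smul_mem _ _) (by
      funext i
      simp) F hF
    rw [← h]
    refine Finset.sum_congr rfl fun i _ => ?_
    congr 1
    simp [frame_zero, Cells.pt]
  · intro F hF
    have h := key (Fin 6) (fun i => C t * K.φ i) a u (by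
      intro q
      have : (fun i => eval q (C t * K.φ i)) = t • ev K.φ q := by
        funext i
        simp [ev]
      rw [this]
      exact hK.smul_mem _ _) (by
      funext i
      simp [Cells.pt, ev]) F hF
    have h2 : t * ∑ i, eval (t • K.pt u) (pderiv i F) * frame K.φ u a.succ i = 0 := by
      rw [← h, Finset.mul_sum]
      refine Finset.sum_congr rfl fun i _ => ?_
      rw [frame_succ, Derivation.leibniz]
      simp [dev]
      ring
    exact (mul_eq_zero.1 h2).resolve_left ht

end Pool.Agent.T2h69.AP
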