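import Pool.Agent.T2h19.AP.Stm2

set_option autoImplicit false

open MvPolynomial

namespace Pool.Agent.T2h69.AP

open Pool.Agent.T2h19.AP

theorem cov_V (hNRM : S_NRM) (hADW : S_ADW) (x y : M3) (hx : x.trace = 0) (hy : y.trace = 0)
    (hxy : x * y = y * x) (v : Fin 3 → ℂ) (hv : detV x y v ≠ 0) :
    ∃ w ∈ W0, ∃ (t : ℂ) (u : Fin 6 → ℂ), t ≠ 0 ∧ wedge x y = w (t • ev φ0 u) := by
  obtain ⟨a1, a2, -⟩ := hADW
  let h : M3 := (Matrix.of ![v, x.mulVec v, y.mulVec v]).transpose
  have hdet : h.det ≠ 0 := by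
    rw [Matrix.det_transpose]
    exact hv
  have hu : IsUnit h.det := isUnit_iff_ne_zero.2 hdet
  set h' : M3 := h⁻¹ with hh'
  have e1 : h * h' = 1 := Matrix.mul_nonsing_inv h hu
  have e2 : h' * h = 1 := Matrix.nonsing_inv_mul h hu
  obtain ⟨w, hw, -, hws⟩ := a2 h h' e1 e2
  have c0 : ∀ i, h i 0 = v i := fun i => rfl
  have c1 : ∀ i, h i 1 = (x * h) i 0 := by
    intro i
    change x.mulVec v i = _
    rw [Matrix.mul_apply]
    rfl
  have c2 : ∀ i, h i 2 = (y * h) i 0 := by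
    intro i
    change y.mulVec v i = _
    rw [Matrix.mul_apply]
    rfl
  have x0 : ∀ i, (h' * x * h) i 0 = (1 : M3) i 1 := by
    intro i
    rw [Matrix.mul_assoc, Matrix.mul_apply, ← e2, Matrix.mul_apply]
    exact Finset.sum_congr rfl fun j _ => by rw [c1]
  have y0 : ∀ i, (h' * y * h) i 0 = (1 : M3) i 2 := by
    intro i
    rw [Matrix.mul_assoc, Matrix.mul_apply, ← e2, Matrix.mul_apply]
    exact Finset.sum_congr rfl fun j _ => by rw [c2]
  have hL : L0 0 (wedge (h' * x * h) (h' * y * h)) = 1 := by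
    have : L0 0 (wedge (h' * x * h) (h' * y * h)) =
      (h' * x * h) 1 0 * (h' * y * h) 2 0 - (h' * y * h) 1 0 * (h' * x * h) 2 0 := rfl
    rw [this, x0, x0, y0, y0]
    simp
  have tx : ∀ m : M3, (h' * m * h).trace = m.trace := by
    intro m
    rw [Matrix.trace_mul_comm, ← Matrix.mul_assoc, e1, Matrix.one_mul]
  have hc : ∀ m n : M3, h' * m * h * (h' * n * h) = h' * (m * n) * h := by
    intro m n
    have : h' * m * h * (h' * n * h) = h' * m * (h * h') * n * h := by
      simp only [Matrix.mul_assoc]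
    rw [this, e1, Matrix.mul_one]
    simp only [Matrix.mul_assoc]
  have hn := hNRM (h' * x * h) (h' * y * h) (by rw [tx, hx]) (by rw [tx, hy]) (by rw [hc, hc, hxy])
    (by rw [hL]; exact one_ne_zero)
  refine ⟨w, hw, L0 0 (wedge (h' * x * h) (h' * y * h)),
    fun j => L0 j.succ (wedge (h' * x * h) (h' * y * h)) / L0 0 (wedge (h' * x * h) (h' * y * h)), ?_, ?_⟩
  · rw [hL]
    exact one_ne_zero
  · rw [← hn, ← a1, ← hws, w.apply_symm_apply]

theorem detV_anti (x y : M3) (f : Fin 3 → ℂ) :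
    detV (anti x) (anti y) (fun i => f (Fin.rev i)) = -detF x y f := by
  have r0 : Fin.rev (0 : Fin 3) = 2 := rfl
  have r1 : Fin.rev (1 : Fin 3) = 1 := rfl
  have r2 : Fin.rev (2 : Fin 3) = 0 := rfl
  simp only [detV, detF, Matrix.det_fin_three, Matrix.of_apply, Matrix.cons_val_zero, Matrix.cons_val_one,
    Matrix.cons_val, Matrix.mulVec, Matrix.vecMul, dotProduct, Fin.sum_univ_three, anti, r0, r1, r2]
  ring

theorem cov_ (hNRM : S_NRM) (hCYC : S_CYC) (hADW : S_ADW) : S_COV := by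
  intro z hz hz0
  obtain ⟨x, y, hx, hy, hxy, rfl⟩ := hz
  have hADW' := hADW
  obtain ⟨a1, a2, a3, a4, a5, a6, a7, a8⟩ := hADW
  rcases hCYC x y hx hy hxy hz0 with ⟨v, hv⟩ | ⟨f, hf⟩
  · exact cov_V hNRM hADW' x y hx hy hxy v hv
  · have t : ∀ m : M3, (anti m).trace = m.trace := by
      intro m
      simp only [Matrix.trace, Matrix.diag, anti, Matrix.of_apply]
      exact Equiv.sum_comp Fin.revPerm (fun i => m i i)
    have m : ∀ m n : M3, anti m * anti n = anti (n * m) := by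
      intro m n
      ext i j
      simp only [Matrix.mul_apply, anti, Matrix.of_apply]
      rw [← Equiv.sum_comp Fin.revPerm (fun k => n (Fin.rev j) k * m k (Fin.rev i))]
      refine Finset.sum_congr rfl fun k _ => ?_
      rw [mul_comm]
      rfl
    obtain ⟨w, hw, t', u, ht', h⟩ := cov_V hNRM hADW' (anti x) (anti y) (by rw [t, hx]) (by rw [t, hy])
      (by rw [m, m, hxy]) (fun i => f (Fin.rev i)) (by rw [detV_anti]; exact neg_ne_zero.2 hf)
    refine ⟨w.trans γ0, a7 w hw, t', u, ht', ?_⟩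
    rw [LinearEquiv.trans_apply, ← h, ← a3, a4]

end Pool.Agent.T2h69.AP
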