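import Pool.Agent.T2h19.AP.Stm

set_option autoImplicit false

open MvPolynomial

namespace Pool.Agent.T2h69.AP

open Pool.Agent.T2h19.AP

theorem sct_ (hHOM : S_HOM) (hVAR : S_VAR) : S_SCT := by
  intro ι _ _ K hK d s g hs
  obtain ⟨-, hOn⟩ := hVAR ι K hK
  refine ⟨?_, ?_⟩
  · intro z hz t ht
    obtain ⟨hzC, hz0⟩ := (hOn z).1 hz
    obtain ⟨w, hw, t0, u, ht0, rfl⟩ := hK.cover z hzC hz0
    have e : t • w (t0 • ev K.φ u) = w ((t * t0) • ev K.φ u) := by
      rw [mul_smul, map_smul w t]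
    rw [e]
    have h1 := hs w hw (t * t0) (mul_ne_zero ht ht0) u
    have h2 := hs w hw t0 ht0 u
    rw [Cells.pt] at h1 h2
    rw [h1, h2, mul_zpow, mul_assoc]
  · intro z₀ hz₀
    obtain ⟨hzC, hz0⟩ := (hOn z₀).1 hz₀
    obtain ⟨w, hw, t0, u, ht0, rfl⟩ := hK.cover z₀ hzC hz0
    obtain ⟨M, hM⟩ := hHOM ι (g w)
    let a : MvPolynomial ι ℂ := form (K.L 0 ∘ₗ w.symm.toLinearMap)
    let b : Fin 6 → MvPolynomial ι ℂ := fun j => form (K.L j.succ ∘ₗ w.symm.toLinearMap)
    obtain ⟨H, hH, -⟩ := hM M le_rfl a b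
    have ha : ∀ z, eval z a = K.L 0 (w.symm z) := fun z => eval_form _ _
    have hb : ∀ j z, eval z (b j) = K.L j.succ (w.symm z) := fun j z => eval_form _ _
    refine ⟨a ^ (M + (-d).toNat + 1), a ^ (d.toNat + 1) * H, ?_, ?_⟩
    · rw [map_pow, ha, w.symm_apply_apply]
      refine pow_ne_zero _ ?_
      rw [map_smul, hK.L_zero, smul_eq_mul, mul_one]
      exact ht0
    · intro z hz
      obtain ⟨hzC', hz0'⟩ := (hOn z).1 hz
      rw [map_mul, map_pow, map_pow]
      by_cases h : eval z a = 0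
      · rw [h]
        simp
      · have hl : K.L 0 (w.symm z) ≠ 0 := by
          rw [← ha]
          exact h
        have hz2 := Cells.eq_smul hK (Cells.symm_mem hK hw hzC') hl
        have hz3 : z = w (K.L 0 (w.symm z) • K.pt (fun j => K.L j.succ (w.symm z) / K.L 0 (w.symm z))) := by
          rw [← hz2, w.apply_symm_apply]
        have h1 := hs w hw _ hl (fun j => K.L j.succ (w.symm z) / K.L 0 (w.symm z))
        rw [← hz3] at h1
        have h2 := hH z h
        simp only [hb, ha] at h2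
        rw [h2, h1, ha]
        have h3 : K.L 0 (w.symm z) ^ d.toNat = K.L 0 (w.symm z) ^ d * K.L 0 (w.symm z) ^ (-d).toNat := by
          rw [← zpow_natCast, ← zpow_natCast, ← zpow_add₀ hl]
          congr 1
          omega
        rw [pow_succ, pow_succ, h3]
        ring

end Pool.Agent.T2h69.AP
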